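import Mathlib

/-!
# Point-finite covers of products: basic notions
-/

namespace Pool.Agent.Y769.Mtc

open Set Topology

universe u v

/-- Point-finite covers ofness: every open cover has a point-finite open refinement. -/
def Mcpt (Y : Type u) [TopologicalSpace Y] : Prop :=
  ∀ 𝒰 : Set (Set Y), (∀ U ∈ 𝒰, IsOpen U) → ⋃₀ 𝒰 = Set.univ →
    ∃ 𝒱 : Set (Set Y), (∀ V ∈ 𝒱, IsOpen V) ∧ ⋃₀ 𝒱 = Set.univ ∧
      (∀ V ∈ 𝒱, ∃ U ∈ 𝒰, V ⊆ U) ∧ ∀ y : Y, {V | V ∈ 𝒱 ∧ y ∈ V}.Finite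

variable {Y : Type u} {X : Type v} [TopologicalSpace Y] [TopologicalSpace X]

/-- Point-finite open shrinking of a cover of a closed set. -/
theorem Mcpt.expand (h : Mcpt Y) {ι : Type*} (U : ι → Set Y) (hU : ∀ i, IsOpen (U i))
    {C : Set Y} (hC : IsClosed C) (hcov : C ⊆ ⋃ i, U i) :
    ∃ O : ι → Set Y, (∀ i, IsOpen (O i)) ∧ (∀ i, O i ⊆ U i) ∧ C ⊆ ⋃ i, O i ∧
      ∀ y, {i | y ∈ O i}.Finite := by
  classical
  obtain ⟨𝒱, h1, h2, h3, h4⟩ := h (range U ∪ {Cᶜ})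
    (by
      rintro V (⟨i, rfl⟩ | hV)
      · exact hU i
      · rw [mem_singleton_iff] at hV
        rw [hV]
        exact hC.isOpen_compl)
    (by
      refine eq_univ_of_forall fun y => ?_
      by_cases hy : y ∈ C
      · obtain ⟨i, hi⟩ := mem_iUnion.1 (hcov hy)
        exact ⟨U i, Or.inl ⟨i, rfl⟩, hi⟩
      · exact ⟨Cᶜ, Or.inr rfl, hy⟩)
  have hc : ∀ V : {V // V ∈ 𝒱 ∧ (V ∩ C).Nonempty}, ∃ i, V.1 ⊆ U i := by
    rintro ⟨V, hV, x, hxV, hxC⟩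
    obtain ⟨W, hW, hVW⟩ := h3 V hV
    rcases hW with ⟨i, rfl⟩ | hW
    · exact ⟨i, hVW⟩
    · rw [mem_singleton_iff] at hW
      subst hW
      exact absurd hxC (hVW hxV)
  choose c hc using hc
  refine ⟨fun i => ⋃ V : {V // V ∈ 𝒱 ∧ (V ∩ C).Nonempty}, ⋃ _ : c V = i, V.1, ?_, ?_, ?_, ?_⟩
  · exact fun i => isOpen_iUnion fun V => isOpen_iUnion fun _ => h1 V.1 V.2.1
  · intro i
    refine iUnion_subset fun V => iUnion_subset fun hV => ?_
    rw [← hV]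
    exact hc V
  · intro y hy
    have : y ∈ ⋃₀ 𝒱 := h2 ▸ mem_univ y
    obtain ⟨V, hV, hyV⟩ := this
    simp only [mem_iUnion]
    exact ⟨c ⟨V, hV, y, hyV, hy⟩, ⟨V, hV, y, hyV, hy⟩, rfl, hyV⟩
  · intro y
    have hfin : {V : {V // V ∈ 𝒱 ∧ (V ∩ C).Nonempty} | y ∈ V.1}.Finite := by
      refine Set.Finite.of_finite_image ((h4 y).subset ?_) Subtype.val_injective.injOn
      rintro _ ⟨V, hV, rfl⟩
      exact ⟨V.2.1, hV⟩
    refine (hfin.image c).subset ?_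
    intro i hi
    simp only [mem_ofPred_eq, mem_iUnion] at hi
    obtain ⟨V, hV, hyV⟩ := hi
    exact ⟨V, hyV, hV⟩

/-- Point-finite covers ofness of a product from an indexed point-finite open cover whose members are covered
by finitely many sets of the given cover. -/
theorem exists_refinement {Z : Type*} [TopologicalSpace Z] {𝒰 : Set (Set Z)}
    (h𝒰 : ∀ U ∈ 𝒰, IsOpen U) {ι : Type*} (P : ι → Set Z) (hP : ∀ i, IsOpen (P i))
    (hcov : ∀ z, ∃ i, z ∈ P i) (hfin : ∀ z, {i | z ∈ P i}.Finite)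
    (T : ι → Set (Set Z)) (hT : ∀ i, (T i).Finite) (hT𝒰 : ∀ i, T i ⊆ 𝒰)
    (hPT : ∀ i, P i ⊆ ⋃₀ T i) :
    ∃ 𝒱 : Set (Set Z), (∀ V ∈ 𝒱, IsOpen V) ∧ ⋃₀ 𝒱 = Set.univ ∧
      (∀ V ∈ 𝒱, ∃ U ∈ 𝒰, V ⊆ U) ∧ ∀ z : Z, {V | V ∈ 𝒱 ∧ z ∈ V}.Finite := by
  refine ⟨{V | ∃ i, ∃ U ∈ T i, V = P i ∩ U}, ?_, ?_, ?_, ?_⟩
  · rintro _ ⟨i, U, hU, rfl⟩
    exact (hP i).inter (h𝒰 U (hT𝒰 i hU))
  · refine eq_univ_of_forall fun z => ?_
    obtain ⟨i, hi⟩ := hcov z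
    obtain ⟨U, hU, hzU⟩ := hPT i hi
    exact ⟨P i ∩ U, ⟨i, U, hU, rfl⟩, hi, hzU⟩
  · rintro _ ⟨i, U, hU, rfl⟩
    exact ⟨U, hT𝒰 i hU, inter_subset_right⟩
  · intro z
    have : {V | V ∈ {V | ∃ i, ∃ U ∈ T i, V = P i ∩ U} ∧ z ∈ V} ⊆
        ⋃ i ∈ {i | z ∈ P i}, (fun U => P i ∩ U) '' T i := by
      rintro V ⟨⟨i, U, hU, rfl⟩, hz⟩
      simp only [mem_iUnion]
      exact ⟨i, hz.1, U, hU, rfl⟩
    exact ((hfin z).biUnion fun i _ => (hT i).image _).subset this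

/-- The preorders given by a sequence of closure-preserving families of compact closed sets. -/
structure Sys (Y : Type u) [TopologicalSpace Y] where
  Ym : ℕ → Set Y
  closed : ∀ m, IsClosed (Ym m)
  mono : Monotone Ym
  cover : ∀ y, ∃ m, y ∈ Ym m
  le : ℕ → Y → Y → Prop
  refl : ∀ m y, le m y y
  trans : ∀ m a b c, le m a b → le m b c → le m a c
  up : ∀ m q, IsOpen {y | le m q y}
  down : ∀ m y, y ∈ Ym m → IsCompact {q | le m q y}
  downc : ∀ m y, IsClosed {q | le m q y}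
  downY : ∀ m q y, y ∈ Ym m → le m q y → q ∈ Ym m

theorem exists_sys (F : ℕ → Set (Set Y)) (h1 : ∀ n, ∀ A ∈ F n, IsCompact A ∧ IsClosed A)
    (h2 : ∀ n, ∀ G ⊆ F n, IsClosed (⋃₀ G)) (h3 : (⋃ n, ⋃₀ F n) = Set.univ) :
    Nonempty (Sys Y) := by
  classical
  let F' : ℕ → Set (Set Y) := fun m => {A | ∃ j ≤ m, A ∈ F j}
  have hF' : ∀ m, ∀ A ∈ F' m, IsCompact A ∧ IsClosed A := by
    rintro m A ⟨j, -, hA⟩
    exact h1 j A hA
  have hU : ∀ m, ∀ G ⊆ F' m, IsClosed (⋃₀ G) := by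
    intro m G hG
    have : ⋃₀ G = ⋃ j ∈ Iic m, ⋃₀ (G ∩ F j) := by
      ext y
      simp only [mem_sUnion, mem_iUnion, mem_inter_iff]
      constructor
      · rintro ⟨A, hA, hy⟩
        obtain ⟨j, hj, hAj⟩ := hG hA
        exact ⟨j, hj, A, ⟨hA, hAj⟩, hy⟩
      · rintro ⟨j, _, A, hA, hy⟩
        exact ⟨A, hA.1, hy⟩
    rw [this]
    exact (finite_Iic m).isClosed_biUnion fun j _ => h2 j _ inter_subset_right
  refine ⟨{ Ym := fun m => ⋃₀ F' m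
            closed := fun m => hU m _ subset_rfl
            mono := ?_
            cover := ?_
            le := fun m q y => ∀ C ∈ F' m, y ∈ C → q ∈ C
            refl := fun m y C _ h => h
            trans := fun m a b c h h' C hC hc => h C hC (h' C hC hc)
            up := ?_
            down := ?_
            downc := ?_
            downY := ?_ }⟩
  · intro m m' hmm
    refine sUnion_subset_sUnion ?_
    rintro A ⟨j, hj, hA⟩
    exact ⟨j, hj.trans hmm, hA⟩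
  · intro y
    have : y ∈ ⋃ n, ⋃₀ F n := h3 ▸ mem_univ y
    obtain ⟨n, A, hA, hy⟩ := mem_iUnion.1 this
    exact ⟨n, A, ⟨n, le_rfl, hA⟩, hy⟩
  · intro m q
    have : {y | ∀ C ∈ F' m, y ∈ C → q ∈ C} = (⋃₀ {C | C ∈ F' m ∧ q ∉ C})ᶜ := by
      ext y
      simp only [mem_ofPred_eq, mem_compl_iff, mem_sUnion, not_exists, not_and]
      constructor
      · rintro h C ⟨hC, hq⟩ hy
        exact hq (h C hC hy)
      · intro h C hC hy
        by_contra hq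
        exact h C ⟨hC, hq⟩ hy
    rw [this]
    exact (hU m _ (fun C hC => hC.1)).isOpen_compl
  · rintro m y ⟨A, hA, hy⟩
    have hcl : IsClosed {q | ∀ C ∈ F' m, y ∈ C → q ∈ C} := by
      have : {q | ∀ C ∈ F' m, y ∈ C → q ∈ C} = ⋂ C ∈ {C | C ∈ F' m ∧ y ∈ C}, C := by
        ext q
        simp only [mem_ofPred_eq, mem_iInter, and_imp]
      rw [this]
      exact isClosed_biInter fun C hC => (hF' m C hC.1).2
    exact (hF' m A hA).1.of_isClosed_subset hcl fun q hq => hq A hA hy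
  · intro m y
    have : {q | ∀ C ∈ F' m, y ∈ C → q ∈ C} = ⋂ C ∈ {C | C ∈ F' m ∧ y ∈ C}, C := by
      ext q
      simp only [mem_ofPred_eq, mem_iInter, and_imp]
    rw [this]
    exact isClosed_biInter fun C hC => (hF' m C hC.1).2
  · rintro m q y ⟨A, hA, hy⟩ h
    exact ⟨A, hA, h A hA hy⟩

namespace Sys

variable (S : Sys Y) {m : ℕ} {Z : Set Y}

/-- Minimal points of `Z`. -/
def Min (m : ℕ) (Z : Set Y) (k : Y) : Prop := k ∈ Z ∧ ∀ q ∈ Z, S.le m q k → S.le m k q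

/-- The class of a point in `Z`. -/
def cls (m : ℕ) (Z : Set Y) (k : Y) : Set Y := {q | q ∈ Z ∧ S.le m q k}

/-- The minimal classes of `Z`. -/
def E (m : ℕ) (Z : Set Y) : Set (Set Y) := {K | ∃ k, S.Min m Z k ∧ K = S.cls m Z k}

theorem exists_min (hZ : IsClosed Z) (hZY : Z ⊆ S.Ym m) {y : Y} (hy : y ∈ Z) :
    ∃ k, S.Min m Z k ∧ S.le m k y := by
  have key : ∃ k : {q // q ∈ Z ∧ S.le m q y}, ∀ a : {q // q ∈ Z ∧ S.le m q y},
      S.le m a.1 k.1 → S.le m k.1 a.1 := by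
    refine exists_maximal_of_chains_bounded (r := fun a b : {q // q ∈ Z ∧ S.le m q y} =>
      S.le m b.1 a.1) ?_ (fun {a b c} h h' => S.trans m _ _ _ h' h)
    intro c hc
    rcases c.eq_empty_or_nonempty with rfl | hne
    · exact ⟨⟨y, hy, S.refl m y⟩, fun a ha => absurd ha (notMem_empty a)⟩
    · have hne' : Nonempty c := hne.to_subtype
      have hcpt : ∀ a : c, IsCompact (Z ∩ {q | S.le m q a.1.1}) := fun a =>
        (S.down m a.1.1 (hZY a.1.2.1)).inter_left hZ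
      have hex : (⋂ a : c, Z ∩ {q | S.le m q a.1.1}).Nonempty := by
        refine IsCompact.nonempty_iInter_of_directed_nonempty_isCompact_isClosed _ ?_ ?_ hcpt
          (fun a => hZ.inter (S.downc m _))
        · intro a b
          rcases eq_or_ne a b with rfl | hab
          · exact ⟨a, subset_rfl, subset_rfl⟩
          · rcases hc a.2 b.2 (fun h => hab (Subtype.ext h)) with h | h
            · exact ⟨b, fun q hq => ⟨hq.1, S.trans m _ _ _ hq.2 h⟩, subset_rfl⟩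
            · exact ⟨a, subset_rfl, fun q hq => ⟨hq.1, S.trans m _ _ _ hq.2 h⟩⟩
        · exact fun a => ⟨a.1.1, a.1.2.1, S.refl m _⟩
      obtain ⟨q, hq⟩ := hex
      rw [mem_iInter] at hq
      obtain ⟨a0, ha0⟩ := hne
      exact ⟨⟨q, (hq ⟨a0, ha0⟩).1, S.trans m _ _ _ (hq ⟨a0, ha0⟩).2 a0.2.2⟩,
        fun a ha => (hq ⟨a, ha⟩).2⟩
  obtain ⟨k, hk⟩ := key
  refine ⟨k.1, ⟨k.2.1, fun q hq hqk => ?_⟩, k.2.2⟩
  exact hk ⟨q, hq, S.trans m _ _ _ hqk k.2.2⟩ hqk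

variable {S} {K : Set Y}

theorem E_subset (hK : K ∈ S.E m Z) : K ⊆ Z := by
  obtain ⟨k, _, rfl⟩ := hK
  exact fun q hq => hq.1

theorem E_le (hK : K ∈ S.E m Z) {a b : Y} (ha : a ∈ K) (hb : b ∈ K) : S.le m a b := by
  obtain ⟨k, hk, rfl⟩ := hK
  exact S.trans m _ _ _ ha.2 (hk.2 b hb.1 hb.2)

theorem E_min (hK : K ∈ S.E m Z) {a : Y} (ha : a ∈ K) : S.Min m Z a := by
  obtain ⟨k, hk, rfl⟩ := hK
  refine ⟨ha.1, fun q hq hqa => ?_⟩
  exact S.trans m _ _ _ ha.2 (hk.2 q hq (S.trans m _ _ _ hqa ha.2))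

theorem E_mem (hK : K ∈ S.E m Z) {a q : Y} (ha : a ∈ K) (hq : q ∈ Z) (hqa : S.le m q a) :
    q ∈ K := by
  obtain ⟨k, hk, rfl⟩ := hK
  exact ⟨hq, S.trans m _ _ _ hqa ha.2⟩

theorem E_nonempty (hK : K ∈ S.E m Z) : K.Nonempty := by
  obtain ⟨k, hk, rfl⟩ := hK
  exact ⟨k, hk.1, S.refl m k⟩

theorem E_compact (hZ : IsClosed Z) (hZY : Z ⊆ S.Ym m) (hK : K ∈ S.E m Z) : IsCompact K := by
  obtain ⟨k, hk, rfl⟩ := hK
  exact (S.down m k (hZY hk.1)).inter_left hZ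

theorem E_eq {K' : Set Y} (hK : K ∈ S.E m Z) (hK' : K' ∈ S.E m Z) {a b : Y} (ha : a ∈ K)
    (hb : b ∈ K') (hab : S.le m a b) : K = K' := by
  have hba : S.le m b a := (E_min hK' hb).2 a (E_subset hK ha) hab
  ext q
  constructor
  · intro hq
    exact E_mem hK' hb (E_subset hK hq) (S.trans m _ _ _ (E_le hK hq ha) hab)
  · intro hq
    exact E_mem hK ha (E_subset hK' hq) (S.trans m _ _ _ (E_le hK' hq hb) hba)

end Sys

/-- The point-finite expansions of the minimal classes. -/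
theorem exists_O (hY : Mcpt Y) (S : Sys Y) (m : ℕ) (Z : Set Y) :
    ∃ O : Set Y → Set Y, IsClosed Z → Z ⊆ S.Ym m →
      (∀ K, IsOpen (O K)) ∧ (∀ K ∈ S.E m Z, ∀ y ∈ O K, ∀ k ∈ K, S.le m k y) ∧
      (∀ y ∈ Z, ∃ K ∈ S.E m Z, y ∈ O K) ∧ ∀ y, {K | K ∈ S.E m Z ∧ y ∈ O K}.Finite := by
  classical
  by_cases hZ : IsClosed Z ∧ Z ⊆ S.Ym m
  · obtain ⟨hZ, hZY⟩ := hZ
    obtain ⟨O, h1, h2, h3, h4⟩ := hY.expand (ι := {K // K ∈ S.E m Z})
      (fun K => ⋃ k ∈ K.1, {y | S.le m k y})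
      (fun K => isOpen_biUnion fun k _ => S.up m k) hZ (by
        intro y hy
        obtain ⟨k, hk, hky⟩ := S.exists_min hZ hZY hy
        simp only [mem_iUnion]
        exact ⟨⟨S.cls m Z k, k, hk, rfl⟩, k, ⟨hk.1, S.refl m k⟩, hky⟩)
    refine ⟨fun K => if h : K ∈ S.E m Z then O ⟨K, h⟩ else ∅, fun _ _ => ⟨?_, ?_, ?_, ?_⟩⟩
    · intro K
      by_cases h : K ∈ S.E m Z
      · simp only [h, dif_pos]
        exact h1 _
      · simp only [h, dif_neg, not_false_eq_true]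
        exact isOpen_empty
    · intro K h y hy k hk
      simp only [h, dif_pos] at hy
      have := h2 _ hy
      simp only [mem_iUnion] at this
      obtain ⟨k', hk', hle⟩ := this
      exact S.trans m _ _ _ (Sys.E_le h hk hk') hle
    · intro y hy
      obtain ⟨⟨K, hK⟩, hyK⟩ := mem_iUnion.1 (h3 hy)
      refine ⟨K, hK, ?_⟩
      simp only [hK, dif_pos]
      exact hyK
    · intro y
      refine ((h4 y).image Subtype.val).subset ?_
      rintro K ⟨hK, hy⟩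
      simp only [hK, dif_pos] at hy
      exact ⟨⟨K, hK⟩, hy, rfl⟩
  · exact ⟨fun _ => ∅, fun h h' => absurd ⟨h, h'⟩ hZ⟩

/-- Tubes around a compact set. -/
theorem exists_tubes (hX : Mcpt X) {𝒰 : Set (Set (Y × X))} (h𝒰 : ∀ U ∈ 𝒰, IsOpen U)
    (hcov : ⋃₀ 𝒰 = Set.univ) (K : Set Y) :
    ∃ (Gc : Set (Set X)) (A : Set X → Set Y) (T : Set X → Set (Set (Y × X))),
      IsCompact K → (∀ G ∈ Gc, IsOpen G) ∧ (∀ x, ∃ G ∈ Gc, x ∈ G) ∧
        (∀ x, {G | G ∈ Gc ∧ x ∈ G}.Finite) ∧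
        ∀ G ∈ Gc, IsOpen (A G) ∧ K ⊆ A G ∧ (T G).Finite ∧ T G ⊆ 𝒰 ∧ A G ×ˢ G ⊆ ⋃₀ T G := by
  classical
  by_cases hK : IsCompact K
  · let Good : Set X → Prop := fun G => ∃ A : Set Y, ∃ T : Set (Set (Y × X)),
      IsOpen A ∧ K ⊆ A ∧ T.Finite ∧ T ⊆ 𝒰 ∧ A ×ˢ G ⊆ ⋃₀ T
    obtain ⟨Gc, h1, h2, h3, h4⟩ := hX {G | IsOpen G ∧ Good G} (fun G hG => hG.1) (by
      refine eq_univ_of_forall fun x => ?_
      have hc : IsCompact (K ×ˢ ({x} : Set X)) := hK.prod isCompact_singleton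
      obtain ⟨T, hT, hTf, hTc⟩ := hc.elim_finite_subcover_image (b := 𝒰) (c := id) h𝒰
        (by
          intro p _
          have : p ∈ ⋃₀ 𝒰 := hcov ▸ mem_univ p
          obtain ⟨U, hU, hp⟩ := this
          simp only [mem_iUnion]
          exact ⟨U, hU, hp⟩)
      obtain ⟨A, B, hA, hB, hKA, hxB, hAB⟩ := generalized_tube_lemma hK
        (isCompact_singleton (x := x)) (isOpen_biUnion fun U hU => h𝒰 U (hT hU)) hTc
      refine ⟨B, ⟨hB, A, T, hA, hKA, hTf, hT, ?_⟩, hxB rfl⟩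
      rw [sUnion_eq_biUnion]
      exact hAB)
    have hgood : ∀ G ∈ Gc, Good G := by
      intro G hG
      obtain ⟨U, hU, hGU⟩ := h3 G hG
      obtain ⟨A, T, a1, a2, a3, a4, a5⟩ := hU.2
      exact ⟨A, T, a1, a2, a3, a4, (prod_mono subset_rfl hGU).trans a5⟩
    have hch : ∀ G : Set X, ∃ A : Set Y, ∃ T : Set (Set (Y × X)), G ∈ Gc →
      IsOpen A ∧ K ⊆ A ∧ T.Finite ∧ T ⊆ 𝒰 ∧ A ×ˢ G ⊆ ⋃₀ T := by
      intro G
      by_cases hG : G ∈ Gc
      · obtain ⟨A, T, h⟩ := hgood G hG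
        exact ⟨A, T, fun _ => h⟩
      · exact ⟨∅, ∅, fun h => absurd h hG⟩
    choose A T hAT using hch
    refine ⟨Gc, A, T, fun _ => ⟨h1, fun x => ?_, h4, hAT⟩⟩
    have : x ∈ ⋃₀ Gc := h2 ▸ mem_univ x
    obtain ⟨G, hG, hx⟩ := this
    exact ⟨G, hG, hx⟩
  · exact ⟨∅, fun _ => ∅, fun _ => ∅, fun h => absurd h hK⟩

end Pool.Agent.Y769.Mtc
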