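import Pool.Agent.Y769.Mtc.Tree

/-!
# Point-finite covers of products: the point-finite cover
-/

namespace Pool.Agent.Y769.Mtc

open Set Topology

universe u v

variable {Y : Type u} {X : Type v} [TopologicalSpace Y] [TopologicalSpace X]
  {𝒰 : Set (Set (Y × X))}

namespace Dat

variable (D : Dat Y X 𝒰)

/-- `y` is an exact witness for the history. -/
def Ex (y : Y) : Hist Y X → Prop
  | [] => True
  | a :: t => Ex y t ∧ ∀ K, (∃ G, (K, G) ∈ a) ↔ K ∈ D.Et t ∧ y ∈ D.Ot t K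

/-- `(z, x)` is compatible with the history. -/
def Co (z : Y) (x : X) : Hist Y X → Prop
  | [] => True
  | a :: t => Co z x t ∧ ∀ p ∈ a, p.1 ∈ D.Et t ∧ z ∈ D.Ot t p.1 ∧ p.2 ∈ D.Gc p.1 ∧ x ∈ p.2

/-- The members of the cover. -/
def P (i : Hist Y X × Set Y × Set X) : Set (Y × X) :=
  {p | D.Co p.1 p.2 i.1 ∧ i.2.1 ∈ D.Et i.1 ∧ i.2.2 ∈ D.Gc i.2.1 ∧ p.1 ∈ D.Wt i.1 i.2.1 i.2.2 ∧
    p.2 ∈ i.2.2 ∧ ∃ y ∈ D.Yh i.1, D.Ex y i.1 ∧ D.nn y ≤ D.nn p.1}

theorem open_Co (t : Hist Y X) : IsOpen {p : Y × X | D.Co p.1 p.2 t} := by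
  induction t with
  | nil => simp only [Co, ofPred_true, isOpen_univ]
  | cons a t ih =>
    have : {p : Y × X | D.Co p.1 p.2 (a :: t)} = {p : Y × X | D.Co p.1 p.2 t} ∩
        ⋂ q ∈ a, {p : Y × X | q.1 ∈ D.Et t ∧ p.1 ∈ D.Ot t q.1 ∧ q.2 ∈ D.Gc q.1 ∧ p.2 ∈ q.2} := by
      ext p
      simp only [Co, mem_ofPred_eq, mem_inter_iff, mem_iInter]
    rw [this]
    refine ih.inter (isOpen_biInter_finset fun q _ => ?_)
    by_cases h : q.1 ∈ D.Et t ∧ q.2 ∈ D.Gc q.1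
    · have h2 : {p : Y × X | q.1 ∈ D.Et t ∧ p.1 ∈ D.Ot t q.1 ∧ q.2 ∈ D.Gc q.1 ∧ p.2 ∈ q.2} =
          D.Ot t q.1 ×ˢ q.2 := by
        ext p
        simp only [mem_ofPred_eq, mem_prod, h.1, h.2, true_and]
      rw [h2]
      exact (D.open_Ot t q.1).prod (D.hG_open q.1 (D.compact_Et h.1) q.2 h.2)
    · have h2 : {p : Y × X | q.1 ∈ D.Et t ∧ p.1 ∈ D.Ot t q.1 ∧ q.2 ∈ D.Gc q.1 ∧ p.2 ∈ q.2} =
          ∅ := by
        ext p
        simp only [mem_ofPred_eq, mem_empty_iff_false, iff_false]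
        rintro ⟨h3, _, h4, _⟩
        exact h ⟨h3, h4⟩
      rw [h2]
      exact isOpen_empty

theorem open_P (i : Hist Y X × Set Y × Set X) : IsOpen (D.P i) := by
  by_cases h : i.2.1 ∈ D.Et i.1 ∧ i.2.2 ∈ D.Gc i.2.1
  · have : D.P i = ({p : Y × X | D.Co p.1 p.2 i.1} ∩ D.Wt i.1 i.2.1 i.2.2 ×ˢ i.2.2) ∩
        ⋃ y ∈ {y | y ∈ D.Yh i.1 ∧ D.Ex y i.1}, Prod.fst ⁻¹' {z | D.nn y ≤ D.nn z} := by
      ext p
      simp only [P, mem_ofPred_eq, mem_inter_iff, mem_prod, mem_iUnion, mem_preimage, h.1, h.2,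
        true_and, exists_prop]
      constructor
      · rintro ⟨h1, h2, h3, y, hy, hy', hy''⟩
        exact ⟨⟨h1, h2, h3⟩, y, ⟨hy, hy'⟩, hy''⟩
      · rintro ⟨⟨h1, h2, h3⟩, y, ⟨hy, hy'⟩, hy''⟩
        exact ⟨h1, h2, h3, y, hy, hy', hy''⟩
    rw [this]
    have hK := D.compact_Et h.1
    refine ((D.open_Co i.1).inter ?_).inter ?_
    · exact (((D.hA _ hK _ h.2).1).inter (D.open_Ot _ _)).prod (D.hG_open _ hK _ h.2)
    · exact isOpen_biUnion fun y _ => (D.open_nn (D.nn y)).preimage continuous_fst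
  · have : D.P i = ∅ := by
      ext p
      simp only [P, mem_ofPred_eq, mem_empty_iff_false, iff_false]
      rintro ⟨-, h3, h4, _⟩
      exact h ⟨h3, h4⟩
    rw [this]
    exact isOpen_empty

/-- The possible steps of `(z, x)` at `t` are finite in number. -/
theorem finite_steps (z : Y) (x : X) (t : Hist Y X) :
    {p : Set Y × Set X | p.1 ∈ D.Et t ∧ z ∈ D.Ot t p.1 ∧ p.2 ∈ D.Gc p.1 ∧ x ∈ p.2}.Finite := by
  have h1 := D.hO_fin _ _ (D.closed_Zt t) (D.Zt_subset t) z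
  have : {p : Set Y × Set X | p.1 ∈ D.Et t ∧ z ∈ D.Ot t p.1 ∧ p.2 ∈ D.Gc p.1 ∧ x ∈ p.2} ⊆
      ⋃ K ∈ {K | K ∈ D.Et t ∧ z ∈ D.Ot t K}, (fun G => (K, G)) '' {G | G ∈ D.Gc K ∧ x ∈ G} := by
    rintro ⟨K, G⟩ ⟨h1, h2, h3, h4⟩
    simp only [mem_iUnion]
    exact ⟨K, ⟨h1, h2⟩, G, ⟨h3, h4⟩, rfl⟩
  refine (Set.Finite.biUnion h1 fun K hK => ?_).subset this
  exact (D.hG_fin K (D.compact_Et hK.1) x).image _

theorem cover_P (p : Y × X) : ∃ i, p ∈ D.P i := by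
  classical
  obtain ⟨z, x⟩ := p
  by_contra hcon
  push Not at hcon
  -- the exact history
  let st : Hist Y X → Finset (Set Y × Set X) := fun t => (D.finite_steps z x t).toFinset
  have hst : ∀ t q, q ∈ st t ↔ q.1 ∈ D.Et t ∧ z ∈ D.Ot t q.1 ∧ q.2 ∈ D.Gc q.1 ∧ x ∈ q.2 := by
    intro t q
    simp only [st, Finite.mem_toFinset, mem_ofPred_eq]
  obtain ⟨f, hf0, hf⟩ : ∃ f : ℕ → Hist Y X, f 0 = [] ∧ ∀ n, f (n + 1) = st (f n) :: f n :=
    ⟨fun n => Nat.rec [] (fun _ t => st t :: t) n, rfl, fun _ => rfl⟩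
  have key : ∀ n, z ∈ D.Yh (f n) ∧ D.Ex z (f n) ∧ D.Co z x (f n) := by
    intro n
    induction n with
    | zero =>
      rw [hf0]
      exact ⟨mem_univ _, trivial, trivial⟩
    | succ n ih =>
      obtain ⟨h1, h2, h3⟩ := ih
      rw [hf]
      refine ⟨?_, ⟨h2, fun K => ?_⟩, ⟨h3, fun q hq => (hst _ q).1 hq⟩⟩
      · rw [mem_Yh_cons]
        refine ⟨h1, fun q hq hE hG hzW => ?_⟩
        refine hcon (f n, q.1, q.2) ⟨h3, hE, hG, hzW, ((hst _ q).1 hq).2.2.2, z, h1, h2, le_rfl⟩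
      · constructor
        · rintro ⟨G, hG⟩
          have := (hst _ _).1 hG
          exact ⟨this.1, this.2.1⟩
        · rintro ⟨hK, hz⟩
          obtain ⟨G, hG, hx⟩ := D.hG_cov K (D.compact_Et hK) x
          exact ⟨G, (hst _ _).2 ⟨hK, hz, hG, hx⟩⟩
  refine D.no_branch f (fun n => st (f n)) hf z fun n hl => ?_
  have hzZ : z ∈ D.Zt (f n) := by
    refine ⟨?_, (key n).1⟩
    rw [hl]
    exact D.mem_nn z
  obtain ⟨K, hK, hzK⟩ := D.hO_cov _ _ (D.closed_Zt (f n)) (D.Zt_subset (f n)) z hzZ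
  have hK' : K ∈ D.Et (f n) := hK
  obtain ⟨G, hG, hx⟩ := D.hG_cov K (D.compact_Et hK') x
  exact ⟨K, hK', G, hG, (hst _ _).2 ⟨hK', hzK, hG, hx⟩, hzK⟩

theorem Yh_suffix {s t : Hist Y X} (h : s <:+ t) : D.Yh t ⊆ D.Yh s := by
  obtain ⟨l, rfl⟩ := h
  induction l with
  | nil => exact subset_rfl
  | cons a l ih =>
    intro y hy
    rw [List.cons_append, mem_Yh_cons] at hy
    exact ih hy.1

theorem Ex_suffix {s t : Hist Y X} (h : s <:+ t) {y : Y} (hy : D.Ex y t) : D.Ex y s := by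
  obtain ⟨l, rfl⟩ := h
  induction l with
  | nil => exact hy
  | cons a l ih =>
    rw [List.cons_append] at hy
    exact ih hy.1

theorem Co_suffix {s t : Hist Y X} (h : s <:+ t) {z : Y} {x : X} (hy : D.Co z x t) :
    D.Co z x s := by
  obtain ⟨l, rfl⟩ := h
  induction l with
  | nil => exact hy
  | cons a l ih =>
    rw [List.cons_append] at hy
    exact ih hy.1

theorem finite_P (p : Y × X) : {i | p ∈ D.P i}.Finite := by
  classical
  obtain ⟨z, x⟩ := p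
  -- the step relation between active nodes
  let Act : Hist Y X → Prop := fun t => ∃ i, (z, x) ∈ D.P i ∧ t <:+ i.1
  let r : Hist Y X → Hist Y X → Prop := fun s t => (∃ a, s = a :: t) ∧ Act s
  have hwf : WellFounded r := by
    rw [wellFounded_iff_isEmpty_descending_chain]
    refine ⟨fun ⟨f, hf⟩ => ?_⟩
    choose a ha using fun n => (hf n).1
    refine D.no_branch f a ha z fun n hl => ?_
    obtain ⟨i, hi, hsuf⟩ := (hf n).2
    obtain ⟨hCo, -, -, -, -, y, hy, hEx, hyz⟩ := hi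
    have hy1 := D.Yh_suffix hsuf hy
    have hEx1 := D.Ex_suffix hsuf hEx
    have hCo1 := D.Co_suffix hsuf hCo
    rw [ha] at hy1 hEx1 hCo1
    rw [mem_Yh_cons] at hy1
    have hyZ : y ∈ D.Zt (f n) := by
      refine ⟨?_, hy1.1⟩
      rw [hl]
      exact D.mem_of_nn_le hyz
    obtain ⟨K, hK, hyK⟩ := D.hO_cov _ _ (D.closed_Zt (f n)) (D.Zt_subset (f n)) y hyZ
    obtain ⟨G, hG⟩ := (hEx1.2 K).2 ⟨hK, hyK⟩
    have := hCo1.2 (K, G) hG
    exact ⟨K, hK, G, this.2.2.1, hG, this.2.1⟩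
  suffices H : ∀ t : Hist Y X, {i | (z, x) ∈ D.P i ∧ t <:+ i.1}.Finite by
    refine (H []).subset fun i hi => ⟨hi, List.nil_suffix⟩
  intro t
  induction t using hwf.induction with
  | _ t ih =>
    have hfs := D.finite_steps z x t
    have hsub : {i | (z, x) ∈ D.P i ∧ t <:+ i.1} ⊆
        ((fun q : Set Y × Set X => (t, q.1, q.2)) '' {p : Set Y × Set X | p.1 ∈ D.Et t ∧
          z ∈ D.Ot t p.1 ∧ p.2 ∈ D.Gc p.1 ∧ x ∈ p.2}) ∪
        ⋃ a ∈ {a : Finset (Set Y × Set X) | a ∈ hfs.toFinset.powerset ∧ Act (a :: t)},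
          {i | (z, x) ∈ D.P i ∧ (a :: t) <:+ i.1} := by
      rintro ⟨t', K, G⟩ ⟨hi, l, hl⟩
      rcases List.eq_nil_or_concat l with rfl | ⟨l', a, rfl⟩
      · simp only [List.nil_append] at hl
        subst hl
        exact Or.inl ⟨(K, G), ⟨hi.2.1, hi.2.2.2.1.2, hi.2.2.1, hi.2.2.2.2.1⟩, rfl⟩
      · have hsuf : (a :: t) <:+ t' := ⟨l', by
          have hl' : l'.concat a ++ t = t' := hl
          rw [← hl']
          simp⟩
        refine Or.inr ?_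
        simp only [mem_iUnion]
        refine ⟨a, ⟨?_, ⟨(t', K, G), hi, hsuf⟩⟩, hi, hsuf⟩
        rw [Finset.mem_powerset]
        intro q hq
        have := D.Co_suffix hsuf hi.1
        rw [Finite.mem_toFinset]
        exact this.2 q hq
    refine Set.Finite.subset (Set.Finite.union (hfs.image _) ?_) hsub
    refine Set.Finite.biUnion ?_ fun a ha => ?_
    · exact (hfs.toFinset.powerset.finite_toSet).subset fun a ha => ha.1
    · exact ih (a :: t) ⟨⟨a, rfl⟩, ha.2⟩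

end Dat

/-- If `Y` is metacompact and is covered by countably many closure-preserving families of compact
closed sets, then `Y × X` is metacompact for every metacompact `X`. -/
theorem mcpt_prod (hY : Mcpt Y) (F : ℕ → Set (Set Y))
    (h1 : ∀ n, ∀ A ∈ F n, IsCompact A ∧ IsClosed A)
    (h2 : ∀ n, ∀ G ⊆ F n, IsClosed (⋃₀ G)) (h3 : (⋃ n, ⋃₀ F n) = Set.univ) (hX : Mcpt X) :
    Mcpt (Y × X) := by
  intro 𝒰 h𝒰 hcov
  obtain ⟨S⟩ := exists_sys F h1 h2 h3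
  obtain ⟨D⟩ := exists_dat hY hX S h𝒰 hcov
  classical
  refine exists_refinement h𝒰 D.P D.open_P D.cover_P D.finite_P
    (fun i => if i.2.1 ∈ D.Et i.1 ∧ i.2.2 ∈ D.Gc i.2.1 then D.T i.2.1 i.2.2 else ∅) ?_ ?_ ?_
  · intro i
    by_cases h : i.2.1 ∈ D.Et i.1 ∧ i.2.2 ∈ D.Gc i.2.1
    · rw [if_pos h]
      exact (D.hA _ (D.compact_Et h.1) _ h.2).2.2.1
    · rw [if_neg h]
      exact Set.finite_empty
  · intro i
    by_cases h : i.2.1 ∈ D.Et i.1 ∧ i.2.2 ∈ D.Gc i.2.1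
    · rw [if_pos h]
      exact (D.hA _ (D.compact_Et h.1) _ h.2).2.2.2.1
    · rw [if_neg h]
      exact empty_subset _
  · rintro i p ⟨-, hK, hG, hW, hx, -⟩
    rw [if_pos ⟨hK, hG⟩]
    exact (D.hA _ (D.compact_Et hK) _ hG).2.2.2.2 ⟨hW.1, hx⟩

end Pool.Agent.Y769.Mtc
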