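import Pool.Agent.Y769.Mtc.Basic

/-!
# Point-finite covers of products: histories
-/

namespace Pool.Agent.Y769.Mtc

open Set Topology

universe u v

/-- The data of the construction. -/
structure Dat (Y : Type u) (X : Type v) [TopologicalSpace Y] [TopologicalSpace X]
    (𝒰 : Set (Set (Y × X))) extends Sys Y where
  O : ℕ → Set Y → Set Y → Set Y
  Gc : Set Y → Set (Set X)
  A : Set Y → Set X → Set Y
  T : Set Y → Set X → Set (Set (Y × X))
  hO_open : ∀ m Z, IsClosed Z → Z ⊆ Ym m → ∀ K, IsOpen (O m Z K)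
  hO_le : ∀ m Z, IsClosed Z → Z ⊆ Ym m → ∀ K ∈ toSys.E m Z, ∀ y ∈ O m Z K, ∀ k ∈ K, le m k y
  hO_cov : ∀ m Z, IsClosed Z → Z ⊆ Ym m → ∀ y ∈ Z, ∃ K ∈ toSys.E m Z, y ∈ O m Z K
  hO_fin : ∀ m Z, IsClosed Z → Z ⊆ Ym m → ∀ y, {K | K ∈ toSys.E m Z ∧ y ∈ O m Z K}.Finite
  hG_open : ∀ K, IsCompact K → ∀ G ∈ Gc K, IsOpen G
  hG_cov : ∀ K, IsCompact K → ∀ x, ∃ G ∈ Gc K, x ∈ G
  hG_fin : ∀ K, IsCompact K → ∀ x, {G | G ∈ Gc K ∧ x ∈ G}.Finite
  hA : ∀ K, IsCompact K → ∀ G ∈ Gc K, IsOpen (A K G) ∧ K ⊆ A K G ∧ (T K G).Finite ∧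
    T K G ⊆ 𝒰 ∧ A K G ×ˢ G ⊆ ⋃₀ T K G

variable {Y : Type u} {X : Type v} [TopologicalSpace Y] [TopologicalSpace X]
  {𝒰 : Set (Set (Y × X))}

theorem exists_dat (hY : Mcpt Y) (hX : Mcpt X) (S : Sys Y) (h𝒰 : ∀ U ∈ 𝒰, IsOpen U)
    (hcov : ⋃₀ 𝒰 = Set.univ) : Nonempty (Dat Y X 𝒰) := by
  choose O hO using fun m Z => exists_O hY S m Z
  choose Gc A T hG using fun K => exists_tubes hX h𝒰 hcov K
  exact ⟨{ toSys := S
           O := O
           Gc := Gc
           A := A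
           T := T
           hO_open := fun m Z h1 h2 => (hO m Z h1 h2).1
           hO_le := fun m Z h1 h2 => (hO m Z h1 h2).2.1
           hO_cov := fun m Z h1 h2 => (hO m Z h1 h2).2.2.1
           hO_fin := fun m Z h1 h2 => (hO m Z h1 h2).2.2.2
           hG_open := fun K hK => (hG K hK).1
           hG_cov := fun K hK => (hG K hK).2.1
           hG_fin := fun K hK => (hG K hK).2.2.1
           hA := fun K hK => (hG K hK).2.2.2 }⟩

/-- Labels of the levels: every label occurs infinitely often. -/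
def lab (n : ℕ) : ℕ := (Nat.unpair n).1

theorem exists_lab (m N : ℕ) : ∃ n ≥ N, lab n = m :=
  ⟨Nat.pair m N, Nat.right_le_pair m N, by simp [lab]⟩

/-- Histories: the most recent step comes first. -/
abbrev Hist (Y : Type u) (X : Type v) := List (Finset (Set Y × Set X))

namespace Dat

variable (D : Dat Y X 𝒰)

/-- The open set used for the class `K` and the open set `G`. -/
def W (m : ℕ) (Z K : Set Y) (G : Set X) : Set Y := D.A K G ∩ D.O m Z K

/-- The remaining closed set after a history. -/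
def Yh : Hist Y X → Set Y
  | [] => Set.univ
  | a :: t => Yh t \ ⋃ p ∈ {p | p ∈ a ∧ p.1 ∈ D.toSys.E (lab t.length)
      (D.Ym (lab t.length) ∩ Yh t) ∧ p.2 ∈ D.Gc p.1}, D.W (lab t.length)
        (D.Ym (lab t.length) ∩ Yh t) p.1 p.2

/-- The closed set treated at the level of `t`. -/
def Zt (t : Hist Y X) : Set Y := D.Ym (lab t.length) ∩ D.Yh t

/-- The minimal classes at `t`. -/
def Et (t : Hist Y X) : Set (Set Y) := D.toSys.E (lab t.length) (D.Zt t)

/-- The expansion of a class at `t`. -/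
def Ot (t : Hist Y X) (K : Set Y) : Set Y := D.O (lab t.length) (D.Zt t) K

/-- The open set used for `K, G` at `t`. -/
def Wt (t : Hist Y X) (K : Set Y) (G : Set X) : Set Y := D.A K G ∩ D.Ot t K

theorem Yh_nil : D.Yh [] = Set.univ := rfl

theorem mem_Yh_cons {a : Finset (Set Y × Set X)} {t : Hist Y X} {y : Y} :
    y ∈ D.Yh (a :: t) ↔ y ∈ D.Yh t ∧ ∀ p ∈ a, p.1 ∈ D.Et t → p.2 ∈ D.Gc p.1 →
      y ∉ D.Wt t p.1 p.2 := by
  simp only [Yh, mem_sdiff, mem_iUnion, mem_ofPred_eq, not_exists]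
  constructor
  · rintro ⟨h1, h2⟩
    exact ⟨h1, fun p hp hE hG hy => h2 p ⟨hp, hE, hG⟩ hy⟩
  · rintro ⟨h1, h2⟩
    exact ⟨h1, fun p hp hy => h2 p hp.1 hp.2.1 hp.2.2 hy⟩

theorem closed_aux (t : Hist Y X) : IsClosed (D.Yh t) := by
  induction t with
  | nil => exact isClosed_univ
  | cons a t ih =>
    have hZ : IsClosed (D.Zt t) := (D.closed _).inter ih
    have hZY : D.Zt t ⊆ D.Ym (lab t.length) := inter_subset_left
    have : D.Yh (a :: t) = D.Yh t ∩ ⋂ p ∈ {p | p ∈ a ∧ p.1 ∈ D.Et t ∧ p.2 ∈ D.Gc p.1},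
        (D.Wt t p.1 p.2)ᶜ := by
      ext y
      rw [mem_Yh_cons]
      simp only [mem_inter_iff, mem_iInter, mem_ofPred_eq, mem_compl_iff]
      constructor
      · rintro ⟨h1, h2⟩
        exact ⟨h1, fun p hp => h2 p hp.1 hp.2.1 hp.2.2⟩
      · rintro ⟨h1, h2⟩
        exact ⟨h1, fun p hp hE hG => h2 p ⟨hp, hE, hG⟩⟩
    rw [this]
    refine ih.inter (isClosed_biInter fun p hp => ?_)
    have hK : IsCompact p.1 := Sys.E_compact hZ hZY hp.2.1
    exact ((D.hA p.1 hK p.2 hp.2.2).1.inter (D.hO_open _ _ hZ hZY _)).isClosed_compl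

theorem closed_Zt (t : Hist Y X) : IsClosed (D.Zt t) := (D.closed _).inter (D.closed_aux t)

theorem Zt_subset (t : Hist Y X) : D.Zt t ⊆ D.Ym (lab t.length) := inter_subset_left

theorem compact_Et {t : Hist Y X} {K : Set Y} (hK : K ∈ D.Et t) : IsCompact K :=
  Sys.E_compact (D.closed_Zt t) (D.Zt_subset t) hK

theorem open_Ot (t : Hist Y X) (K : Set Y) : IsOpen (D.Ot t K) :=
  D.hO_open _ _ (D.closed_Zt t) (D.Zt_subset t) K

/-- Each class is contained in its expansion. -/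
theorem subset_Ot {t : Hist Y X} {K : Set Y} (hK : K ∈ D.Et t) : K ⊆ D.Ot t K := by
  intro k hk
  have hkZ : k ∈ D.Zt t := Sys.E_subset hK hk
  obtain ⟨K', hK', hkK'⟩ := D.hO_cov _ _ (D.closed_Zt t) (D.Zt_subset t) k hkZ
  obtain ⟨k', hk'⟩ := Sys.E_nonempty hK'
  have hle := D.hO_le _ _ (D.closed_Zt t) (D.Zt_subset t) K' hK' k hkK' k' hk'
  have : K' = K := Sys.E_eq hK' hK hk' hk hle
  rw [← this]
  exact hkK'

theorem subset_Wt {t : Hist Y X} {K : Set Y} (hK : K ∈ D.Et t) {G : Set X} (hG : G ∈ D.Gc K) :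
    K ⊆ D.Wt t K G :=
  subset_inter (D.hA K (D.compact_Et hK) G hG).2.1 (D.subset_Ot hK)

/-- The index of the first set `Ym m` containing a point. -/
noncomputable def nn (y : Y) : ℕ := by
  classical exact Nat.find (D.cover y)

theorem mem_nn (y : Y) : y ∈ D.Ym (D.nn y) := by
  classical exact Nat.find_spec (D.cover y)

theorem nn_le {y : Y} {m : ℕ} (h : y ∈ D.Ym m) : D.nn y ≤ m := by
  classical exact Nat.find_min' (D.cover y) h

theorem mem_of_nn_le {y : Y} {m : ℕ} (h : D.nn y ≤ m) : y ∈ D.Ym m := D.mono h (D.mem_nn y)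

theorem open_nn (n : ℕ) : IsOpen {z | n ≤ D.nn z} := by
  have : {z | n ≤ D.nn z} = ⋂ j ∈ Iio n, (D.Ym j)ᶜ := by
    ext z
    simp only [mem_ofPred_eq, mem_iInter, mem_compl_iff, mem_Iio]
    constructor
    · intro h j hj hz
      have := D.nn_le hz
      omega
    · intro h
      by_contra hc
      exact h _ (not_le.1 hc) (D.mem_nn z)
  rw [this]
  exact (finite_Iio n).isOpen_biInter fun j _ => (D.closed j).isOpen_compl

/-- There is no infinite branch. -/
theorem no_branch (f : ℕ → Hist Y X) (a : ℕ → Finset (Set Y × Set X))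
    (hf : ∀ n, f (n + 1) = a n :: f n) (z : Y)
    (h : ∀ n, lab (f n).length = D.nn z → ∃ K ∈ D.Et (f n), ∃ G ∈ D.Gc K, (K, G) ∈ a n ∧
      z ∈ D.Ot (f n) K) : False := by
  have hlen : ∀ n, (f n).length = (f 0).length + n := by
    intro n
    induction n with
    | zero => rfl
    | succ n ih => rw [hf, List.length_cons, ih]; omega
  have hmono : ∀ n n', n ≤ n' → D.Yh (f n') ⊆ D.Yh (f n) := by
    intro n n' hnn
    induction hnn with
    | refl => exact subset_rfl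
    | step _ ih =>
      refine subset_trans (fun y hy => ?_) ih
      rw [hf, mem_Yh_cons] at hy
      exact hy.1
  have hlab : ∀ N, ∃ n ≥ N, lab (f n).length = D.nn z := by
    intro N
    obtain ⟨j, hj, hj'⟩ := exists_lab (D.nn z) ((f 0).length + N)
    refine ⟨j - (f 0).length, by omega, ?_⟩
    rw [hlen]
    rw [show (f 0).length + (j - (f 0).length) = j by omega]
    exact hj'
  -- each point has a neighbourhood avoiding the late classes
  have hloc : ∀ q ∈ {q | D.le (D.nn z) q z}, ∃ N ∈ 𝓝 q, ∃ n0, ∀ n ≥ n0,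
      lab (f n).length = D.nn z → ∀ K ∈ D.Et (f n), ∀ G ∈ D.Gc K, (K, G) ∈ a n →
        ∀ k ∈ K, k ∉ N := by
    intro q hq
    by_cases hall : ∀ n, q ∈ D.Yh (f n)
    · refine ⟨{y | D.le (D.nn z) q y}, (D.up _ q).mem_nhds (D.refl _ q), 0, ?_⟩
      intro n _ hl K hK G hG hKG k hk hkN
      have hqZ : q ∈ D.Zt (f n) := by
        refine ⟨?_, hall n⟩
        rw [hl]
        exact D.downY _ q z (D.mem_nn z) hq
      have hK' : K ∈ D.toSys.E (lab (f n).length) (D.Zt (f n)) := hK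
      have hqK : q ∈ K := Sys.E_mem hK' hk hqZ (by rw [hl]; exact hkN)
      have hq2 := hall (n + 1)
      rw [hf, mem_Yh_cons] at hq2
      exact hq2.2 (K, G) hKG hK hG (D.subset_Wt hK hG hqK)
    · push Not at hall
      obtain ⟨n0, hn0⟩ := hall
      refine ⟨(D.Yh (f n0))ᶜ, (D.closed_aux _).isOpen_compl.mem_nhds hn0, n0, ?_⟩
      intro n hn _ K hK G _ _ k hk hkN
      exact hkN (hmono n0 n hn (Sys.E_subset hK hk).2)
  choose! N hN n0 hn0 using hloc
  obtain ⟨t, ht, htc⟩ := (D.down _ z (D.mem_nn z)).elim_nhds_subcover N hN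
  obtain ⟨n, hn, hl⟩ := hlab (t.sup n0)
  obtain ⟨K, hK, G, hG, hKG, hzO⟩ := h n hl
  obtain ⟨k, hk⟩ := Sys.E_nonempty hK
  have hkz : D.le (D.nn z) k z := by
    have := D.hO_le _ _ (D.closed_Zt (f n)) (D.Zt_subset (f n)) K hK z hzO k hk
    rwa [hl] at this
  have := htc hkz
  simp only [mem_iUnion] at this
  obtain ⟨q, hq, hkq⟩ := this
  exact hn0 q (ht q hq) n ((Finset.le_sup hq).trans hn) hl K hK G hG hKG k hk hkq

end Dat

end Pool.Agent.Y769.Mtc
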